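import Pool.Agent.Lib.MP_9f2d77_lc.Pieces
import Pool.Agent.Lib.MP_9f2d77_lc.NonBorel

/-!
MP_9f2d77_lc, Q1: a negative answer.  For the class of all finite linear orders, every class of
the induced bi-embeddability relation on the Polish space of linear orders on the natural numbers
is Borel; hence an analytic equivalence relation with a non-Borel class does not reduce to it.
-/

namespace Pool.Agent.Results.MP_9f2d77_lc.FinNotComplete

open Set MeasureTheory Pool.Agent.Lib.MP_9f2d77_lc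

/-- `r` is the characteristic function of (the relation `≤` of) a linear order on `α`. -/
def IsLin {α : Type} (r : α × α → Bool) : Prop :=
  (∀ a, r (a, a) = true) ∧
  (∀ a b, r (a, b) = true → r (b, a) = true → a = b) ∧
  (∀ a b c, r (a, b) = true → r (b, c) = true → r (a, c) = true) ∧
  (∀ a b, r (a, b) = true ∨ r (b, a) = true)

/-- The space of linear orders on `ℕ`, a closed subspace of `2 ^ (ℕ × ℕ)`. -/
abbrev LO : Type := {r : ℕ × ℕ → Bool // IsLin r}

/-- The finite linear orders, with domains `{0, …, n}`. -/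
abbrev FinLO : Type := Σ n : ℕ, {r : Fin (n + 1) × Fin (n + 1) → Bool // IsLin r}

/-- `Lin = Fin ∪ LO`, a disjoint union of standard Borel spaces. -/
abbrev Lin : Type := FinLO ⊕ LO

/-- The domain of a linear order. -/
def Dom : Lin → Type
  | Sum.inl K => Fin (K.1 + 1)
  | Sum.inr _ => ℕ

/-- The order relation `≤` of a linear order. -/
def le : (L : Lin) → Dom L → Dom L → Prop
  | Sum.inl K => fun a b => K.2.1 (a, b) = true
  | Sum.inr L => fun a b => L.1 (a, b) = true

/-- `K` embeds in `L`. -/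
def Emb (K L : Lin) : Prop := ∃ f : Dom K → Dom L, ∀ a b, le K a b ↔ le L (f a) (f b)

/-- The scattered linear orders. -/
def Scat : Set Lin := {L | ¬ ∃ f : ℚ → Dom L, ∀ p q : ℚ, p ≤ q ↔ le L (f p) (f q)}

/-- The class of one-point orders. -/
def One : Set Lin := {L | ∀ a b : Dom L, a = b}

/-- The class of all finite linear orders. -/
def FinCl : Set Lin := Set.range Sum.inl

/-- `A` is a convex subset of `L`. -/
def Convex (L : Lin) (A : Set (Dom L)) : Prop :=
  ∀ a ∈ A, ∀ c ∈ A, ∀ b, le L a b → le L b c → b ∈ A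

/-- `𝓛`-convex embeddability: `π` gives the partition of `L` into convex pieces indexed by
`K ∈ 𝓛` and ordered as `K`, and `f` is the embedding. -/
def ConvEmb (𝓛 : Set Lin) (L L' : Lin) : Prop :=
  ∃ K ∈ 𝓛, ∃ (π : Dom L → Dom K) (f : Dom L → Dom L'), Function.Surjective π ∧
    (∀ a b, le L a b → le K (π a) (π b)) ∧ (∀ a b, le L a b ↔ le L' (f a) (f b)) ∧
    ∀ k, Convex L' (f '' (π ⁻¹' {k}))

/-- `𝓛` is downward closed under embeddability. -/
def DownClosed (𝓛 : Set Lin) : Prop := ∀ L ∈ 𝓛, ∀ K, Emb K L → K ∈ 𝓛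

/-- `𝓛` is ccs: `𝓛`-convex embeddability on `LO` is transitive. -/
def CCS (𝓛 : Set Lin) : Prop :=
  ∀ L L' L'' : LO, ConvEmb 𝓛 (Sum.inr L) (Sum.inr L') → ConvEmb 𝓛 (Sum.inr L') (Sum.inr L'') →
    ConvEmb 𝓛 (Sum.inr L) (Sum.inr L'')

/-- The bi-embeddability relation on `LO`. -/
def BiEmb (𝓛 : Set Lin) (L L' : LO) : Prop :=
  ConvEmb 𝓛 (Sum.inr L) (Sum.inr L') ∧ ConvEmb 𝓛 (Sum.inr L') (Sum.inr L)

/-- Borel reducibility. -/
def BorelRed {X Y : Type} [MeasurableSpace X] [MeasurableSpace Y] (F : X → X → Prop)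
    (E : Y → Y → Prop) : Prop := ∃ f : X → Y, Measurable f ∧ ∀ x y, F x y ↔ E (f x) (f y)

/-- `F` is an analytic equivalence relation. -/
def AnalyticER {X : Type} [TopologicalSpace X] (F : X → X → Prop) : Prop :=
  Equivalence F ∧ AnalyticSet {p : X × X | F p.1 p.2}

/-- `E` is complete for analytic equivalence relations. -/
def CompleteAnalytic {Y : Type} [TopologicalSpace Y] [MeasurableSpace Y] (E : Y → Y → Prop) :
    Prop :=
  AnalyticER E ∧ ∀ (X : Type) [TopologicalSpace X] [PolishSpace X] [MeasurableSpace X]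
    [BorelSpace X] (F : X → X → Prop), AnalyticER F → BorelRed F E

/-! ### A Borel embedding of all countable orders in `ℚ` -/

/-- A rational in the right gap. -/
noncomputable def stp (n : ℕ) (b : Fin n → Bool) (v : Fin n → ℚ) : ℚ := by
  classical
  exact if h : ∃ q : ℚ, ∀ i, (b i = true → v i < q) ∧ (b i = false → q < v i) then h.choose else 0

/-- The embedding. -/
noncomputable def emb (r : ℕ × ℕ → Bool) : ℕ → ℚ
  | n => stp n (fun i => r (i, n)) (fun i => emb r i)
termination_by n => n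
decreasing_by exact i.2

theorem emb_spec {r : ℕ × ℕ → Bool} (hr : IsLin r) (n : ℕ) :
    ∀ i < n, (r (i, n) = true → emb r i < emb r n) ∧ (r (i, n) = false → emb r n < emb r i) := by
  induction n using Nat.strong_induction_on with
  | _ n ih =>
    obtain ⟨_, hanti, htrans, htot⟩ := hr
    have hex : ∃ q : ℚ, ∀ i : Fin n, (r ((i : ℕ), n) = true → emb r i < q) ∧
        (r ((i : ℕ), n) = false → q < emb r i) := by
      classical
      obtain ⟨q, h1, h2⟩ := Order.exists_between_finsets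
        (Finset.image (fun i : Fin n => emb r (i : ℕ))
          (Finset.filter (fun i : Fin n => r ((i : ℕ), n) = true) Finset.univ))
        (Finset.image (fun i : Fin n => emb r (i : ℕ))
          (Finset.filter (fun i : Fin n => r ((i : ℕ), n) = false) Finset.univ))
        (by
          intro x hx y hy
          obtain ⟨i, hi, rfl⟩ := Finset.mem_image.1 hx
          obtain ⟨j, hj, rfl⟩ := Finset.mem_image.1 hy
          have hi' := (Finset.mem_filter.1 hi).2
          have hj' := (Finset.mem_filter.1 hj).2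
          have hnj : r (n, (j : ℕ)) = true := by
            rcases htot n (j : ℕ) with h | h
            · exact h
            · rw [hj'] at h; cases h
          have hij : r ((i : ℕ), (j : ℕ)) = true := htrans _ _ _ hi' hnj
          rcases lt_trichotomy (i : ℕ) (j : ℕ) with h | h | h
          · exact (ih j j.2 i h).1 hij
          · rw [h, hj'] at hi'; cases hi'
          · refine (ih i i.2 j h).2 ?_
            by_contra hc
            have : r ((j : ℕ), (i : ℕ)) = true := by simpa using hc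
            exact absurd (hanti _ _ hij this) h.ne')
      refine ⟨q, fun i => ⟨fun h => h1 _ ?_, fun h => h2 _ ?_⟩⟩
      · exact Finset.mem_image.2 ⟨i, Finset.mem_filter.2 ⟨Finset.mem_univ _, h⟩, rfl⟩
      · exact Finset.mem_image.2 ⟨i, Finset.mem_filter.2 ⟨Finset.mem_univ _, h⟩, rfl⟩
    have e : emb r n = hex.choose := by
      rw [emb]
      unfold stp
      rw [dif_pos hex]
    intro i hi
    rw [e]
    exact hex.choose_spec ⟨i, hi⟩

theorem emb_le {r : ℕ × ℕ → Bool} (hr : IsLin r) (a b : ℕ) :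
    r (a, b) = true ↔ emb r a ≤ emb r b := by
  obtain ⟨hrefl, hanti, _, htot⟩ := id hr
  rcases lt_trichotomy a b with h | h | h
  · have := emb_spec hr b a h
    cases hab : r (a, b)
    · simp [this.2 hab]
    · simp [(this.1 hab).le]
  · subst h
    simp [hrefl a]
  · have := emb_spec hr a b h
    cases hba : r (b, a)
    · have h1 := this.2 hba
      have h2 : r (a, b) = true := by
        rcases htot a b with h3 | h3
        · exact h3
        · rw [hba] at h3; cases h3
      simp [h2, h1.le]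
    · have h1 := this.1 hba
      have h2 : r (a, b) ≠ true := fun h3 => h.ne' (hanti a b h3 hba)
      simp [h2, h1]

theorem measurable_emb (n : ℕ) : Measurable fun r : ℕ × ℕ → Bool => emb r n := by
  induction n using Nat.strong_induction_on with
  | _ n ih =>
    have e : (fun r : ℕ × ℕ → Bool => emb r n) =
        (fun p : (Fin n → Bool) × (Fin n → ℚ) => stp n p.1 p.2) ∘
        fun r : ℕ × ℕ → Bool => ((fun i : Fin n => r ((i : ℕ), n)), fun i : Fin n => emb r i) := by
      funext r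
      change emb r n = stp n _ _
      rw [emb]
    rw [e]
    refine Measurable.comp Measurable.of_discrete (Measurable.prodMk ?_ ?_)
    · exact measurable_pi_lambda _ fun i => measurable_pi_apply _
    · exact measurable_pi_lambda _ fun i => ih i i.2

/-- The copy of a linear order inside `ℚ`. -/
def D (L : LO) : Set ℚ := Set.range (emb L.1)

theorem measurable_D : Measurable D := by
  refine measurable_set_iff.2 fun q => ?_
  have e : (fun L : LO => q ∈ D L) = fun L : LO => ∃ n, emb L.1 n = q := rfl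
  rw [e]
  exact Measurable.exists fun n => Measurable.eq_const
    ((measurable_emb n).comp measurable_subtype_coe) q

theorem D_nonempty (L : LO) : (D L).Nonempty := ⟨_, 0, rfl⟩

theorem emb_inj (L : LO) {a b : ℕ} (h : emb L.1 a = emb L.1 b) : a = b :=
  L.2.2.1 a b ((emb_le L.2 a b).2 h.le) ((emb_le L.2 b a).2 h.ge)

/-! ### Finite convex embeddability in terms of the copies -/

/-- The rank in a finite order. -/
noncomputable def rk {n : ℕ} (k : Fin n × Fin n → Bool) (i : Fin n) : ℕ :=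
  (Finset.univ.filter fun j => k (j, i) = true).card

theorem rk_mono {n : ℕ} {k : Fin n × Fin n → Bool} (hk : IsLin k) {i j : Fin n}
    (h : k (i, j) = true) : rk k i ≤ rk k j := by
  refine Finset.card_le_card fun l hl => ?_
  rw [Finset.mem_filter] at hl ⊢
  exact ⟨hl.1, hk.2.2.1 _ _ _ hl.2 h⟩

theorem rk_inj_aux {n : ℕ} {k : Fin n × Fin n → Bool} (hk : IsLin k) {i j : Fin n}
    (h : k (i, j) = true) (he : rk k i = rk k j) : i = j := by
  have hsub : (Finset.univ.filter fun l => k (l, i) = true) ⊆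
      (Finset.univ.filter fun l => k (l, j) = true) := fun l hl => by
    rw [Finset.mem_filter] at hl ⊢
    exact ⟨hl.1, hk.2.2.1 _ _ _ hl.2 h⟩
  have := Finset.eq_of_subset_of_card_le hsub he.ge
  have hj : j ∈ (Finset.univ.filter fun l => k (l, j) = true) :=
    Finset.mem_filter.2 ⟨Finset.mem_univ _, hk.1 j⟩
  rw [← this] at hj
  exact hk.2.1 _ _ h (Finset.mem_filter.1 hj).2

theorem rk_inj {n : ℕ} {k : Fin n × Fin n → Bool} (hk : IsLin k) {i j : Fin n}
    (he : rk k i = rk k j) : i = j := by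
  rcases hk.2.2.2 i j with h | h
  · exact rk_inj_aux hk h he
  · exact (rk_inj_aux hk h he.symm).symm

theorem rk_le {n : ℕ} (k : Fin n × Fin n → Bool) (i : Fin n) : rk k i ≤ n :=
  (Finset.card_le_univ _).trans (by simp)

theorem pw_of_convEmb {L L' : LO} (h : ConvEmb FinCl (Sum.inr L) (Sum.inr L')) :
    PW (D L) (D L') := by
  obtain ⟨_, ⟨⟨n, k, hk⟩, rfl⟩, π, f, _, hmono, hf, hconv⟩ := h
  change ℕ → Fin (n + 1) at π
  change ℕ → ℕ at f
  have hmono' : ∀ a b : ℕ, L.1 (a, b) = true → k (π a, π b) = true := hmono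
  have hf' : ∀ a b : ℕ, L.1 (a, b) = true ↔ L'.1 (f a, f b) = true := hf
  have hle : ∀ a b : ℕ, emb L.1 a ≤ emb L.1 b ↔ emb L'.1 (f a) ≤ emb L'.1 (f b) := by
    intro a b
    rw [← emb_le L.2, ← emb_le L'.2]
    exact hf' a b
  refine ⟨n + 1, fun x y i => ∃ a, emb L.1 a = x ∧ emb L'.1 (f a) = y ∧ rk k (π a) = i,
    ⟨?_, ?_, ?_, ?_, ?_, ?_, ?_⟩⟩
  · rintro _ ⟨a, rfl⟩
    exact ⟨_, _, a, rfl, rfl, rfl⟩
  · rintro _ _ _ ⟨a, rfl, rfl, rfl⟩
    exact ⟨a, rfl⟩
  · rintro _ _ _ ⟨a, rfl, rfl, rfl⟩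
    exact ⟨f a, rfl⟩
  · rintro _ _ _ _ _ _ ⟨a, rfl, rfl, rfl⟩ ⟨b, rfl, rfl, rfl⟩
    rw [← not_le, ← not_le, hle b a]
  · rintro _ _ _ _ _ _ ⟨a, rfl, rfl, rfl⟩ ⟨b, rfl, rfl, rfl⟩ hab
    exact rk_mono hk (hmono' a b ((emb_le L.2 a b).2 hab))
  · rintro _ _ _ ⟨a, rfl, rfl, rfl⟩
    exact rk_le _ _
  · rintro _ _ _ _ i ⟨a, rfl, rfl, h1⟩ ⟨b, rfl, rfl, h2⟩ _ ⟨c, rfl⟩ hac hcb
    have hab : π a = π b := rk_inj hk (h1.trans h2.symm)
    obtain ⟨d, hd, hdc⟩ := hconv (π a) (f a) ⟨a, rfl, rfl⟩ (f b) ⟨b, hab.symm, rfl⟩ c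
      ((emb_le L'.2 _ _).2 hac) ((emb_le L'.2 _ _).2 hcb)
    have hd' : π d = π a := hd
    have hdc' : f d = c := hdc
    exact ⟨emb L.1 d, d, rfl, by rw [hdc'], by rw [hd', h1]⟩

theorem convEmb_of_pw {L L' : LO} (h : PW (D L) (D L')) :
    ConvEmb FinCl (Sum.inr L) (Sum.inr L') := by
  classical
  obtain ⟨B, R, hR⟩ := h
  have h1 : ∀ a : ℕ, ∃ (b i : ℕ), R (emb L.1 a) (emb L'.1 b) i := by
    intro a
    obtain ⟨y, i, hi⟩ := hR.dom (emb L.1 a) ⟨a, rfl⟩
    obtain ⟨b, rfl⟩ := hR.right hi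
    exact ⟨b, i, hi⟩
  choose f lab hfl using h1
  let S : Finset ℕ := (Finset.range (B + 1)).filter fun i => ∃ a, lab a = i
  have hS : ∀ a, lab a ∈ S := fun a => Finset.mem_filter.2
    ⟨Finset.mem_range.2 (Nat.lt_succ_of_le (hR.bound (hfl a))), a, rfl⟩
  have hSne : S.card ≠ 0 := Finset.card_ne_zero_of_mem (hS 0)
  obtain ⟨n, hn⟩ := Nat.exists_eq_succ_of_ne_zero hSne
  let e : Fin (n + 1) ≃o S := S.orderIsoOfFin hn
  let k : Fin (n + 1) × Fin (n + 1) → Bool := fun p => decide (p.1 ≤ p.2)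
  have hk : IsLin k := by
    refine ⟨fun a => by simp [k], fun a b h1 h2 => ?_, fun a b c h1 h2 => ?_, fun a b => ?_⟩
    · simp only [k, decide_eq_true_eq] at h1 h2
      exact le_antisymm h1 h2
    · simp only [k, decide_eq_true_eq] at h1 h2 ⊢
      exact h1.trans h2
    · simp only [k, decide_eq_true_eq]
      exact le_total a b
  let π : ℕ → Fin (n + 1) := fun a => e.symm ⟨lab a, hS a⟩
  have hπ : ∀ a b, π a ≤ π b ↔ lab a ≤ lab b := by
    intro a b
    change e.symm _ ≤ e.symm _ ↔ _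
    rw [e.symm.le_iff_le]
    rfl
  refine ⟨Sum.inl ⟨n, k, hk⟩, ⟨_, rfl⟩, π, f, ?_, ?_, ?_, ?_⟩
  · intro j
    change ∃ a, π a = j
    obtain ⟨_, a, ha⟩ := Finset.mem_filter.1 (e j).2
    refine ⟨a, ?_⟩
    have : (⟨lab a, hS a⟩ : S) = e j := Subtype.ext ha
    change e.symm ⟨lab a, hS a⟩ = j
    rw [this, e.symm_apply_apply]
  · intro a b hab
    change k (π a, π b) = true
    simp only [k, decide_eq_true_eq]
    rw [hπ]
    exact hR.mono (hfl a) (hfl b) ((emb_le L.2 a b).1 hab)
  · intro a b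
    change L.1 (a, b) = true ↔ L'.1 (f a, f b) = true
    rw [emb_le L.2, emb_le L'.2]
    exact hR.le_iff (hfl a) (hfl b)
  · rintro j _ ⟨a, ha, rfl⟩ _ ⟨b, hb, rfl⟩ c hac hcb
    have hab : π a = π b := (show π a = j from ha).trans (show π b = j from hb).symm
    have hlab : lab a = lab b := le_antisymm ((hπ a b).1 hab.le) ((hπ b a).1 hab.ge)
    change ℕ at c
    have hac' : emb L'.1 (f a) ≤ emb L'.1 c := (emb_le L'.2 _ _).1 hac
    have hcb' : emb L'.1 c ≤ emb L'.1 (f b) := (emb_le L'.2 _ _).1 hcb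
    have hb' := hfl b
    rw [← hlab] at hb'
    obtain ⟨w, hw⟩ := hR.conv (hfl a) hb' (emb L'.1 c) ⟨c, rfl⟩ hac' hcb'
    obtain ⟨d, rfl⟩ := hR.left hw
    have hd := hR.index_eq (hfl d) hw
    have hfd : emb L'.1 (f d) = emb L'.1 c := (hR.eq_iff (hfl d) hw).1 rfl
    refine ⟨d, ?_, emb_inj L' hfd⟩
    change π d = j
    rw [← show π a = j from ha]
    exact le_antisymm ((hπ _ _).2 hd.le) ((hπ _ _).2 hd.ge)

theorem convEmb_iff {L L' : LO} :
    ConvEmb FinCl (Sum.inr L) (Sum.inr L') ↔ PW (D L) (D L') :=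
  ⟨pw_of_convEmb, convEmb_of_pw⟩

/-- Every class of the bi-embeddability relation of the finite orders is Borel. -/
theorem classes_borel (L : LO) : MeasurableSet {L' : LO | BiEmb FinCl L L'} := by
  have e : {L' : LO | BiEmb FinCl L L'} = {L' : LO | PW (D L) (D L') ∧ PW (D L') (D L)} := by
    ext L'
    exact and_congr convEmb_iff convEmb_iff
  rw [e]
  exact ((meas_PW_right measurable_D (D_nonempty L)).and
    (meas_PW_left measurable_D D_nonempty (D L))).setOf

theorem ccs_finCl : CCS FinCl := fun _ _ _ h k =>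
  convEmb_iff.2 ((convEmb_iff.1 h).trans (convEmb_iff.1 k))

theorem downClosed_finCl : DownClosed FinCl := by
  rintro _ ⟨L, rfl⟩ K ⟨f, hf⟩
  rcases K with K | K
  · exact ⟨K, rfl⟩
  · exfalso
    change ℕ → Fin (L.1 + 1) at f
    have hinj : Function.Injective f := by
      intro a b hab
      have h1 : ∀ a b : ℕ, K.1 (a, b) = true ↔ L.2.1 (f a, f b) = true := hf
      refine K.2.2.1 a b ((h1 a b).2 ?_) ((h1 b a).2 ?_)
      · rw [hab]; exact L.2.2.1 _
      · rw [hab]; exact L.2.2.1 _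
    exact not_injective_infinite_finite f hinj

theorem finCl_subset_scat : FinCl ⊆ Scat := by
  rintro _ ⟨L, rfl⟩ ⟨f, hf⟩
  change ℚ → Fin (L.1 + 1) at f
  have hf' : ∀ p q : ℚ, p ≤ q ↔ L.2.1 (f p, f q) = true := hf
  have hinj : Function.Injective f := by
    intro a b hab
    refine le_antisymm ((hf' a b).2 ?_) ((hf' b a).2 ?_)
    · rw [hab]; exact L.2.2.1 _
    · rw [hab]; exact L.2.2.1 _
  exact not_injective_infinite_finite f hinj

theorem finCl_ne_one : FinCl ≠ One := by
  intro h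
  have hk : IsLin (fun p : Fin (1 + 1) × Fin (1 + 1) => decide (p.1 ≤ p.2)) := by
    refine ⟨fun a => by simp, fun a b h1 h2 => ?_, fun a b c h1 h2 => ?_, fun a b => ?_⟩
    · simp only [decide_eq_true_eq] at h1 h2
      exact le_antisymm h1 h2
    · simp only [decide_eq_true_eq] at h1 h2 ⊢
      exact h1.trans h2
    · simp only [decide_eq_true_eq]
      exact le_total a b
  have h1 : (Sum.inl ⟨1, _, hk⟩ : Lin) ∈ One := h ▸ ⟨_, rfl⟩
  have h2 : (0 : Fin (1 + 1)) = 1 := h1 (0 : Fin (1 + 1)) (1 : Fin (1 + 1))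
  exact absurd h2 (by decide)

/-- The negative answer to Q1, with the class of all finite linear orders. -/
theorem result :
    (MeasurableSet FinCl ∧ FinCl.Nonempty ∧ DownClosed FinCl ∧ CCS FinCl ∧ FinCl ⊆ Scat ∧
      FinCl ≠ One) ∧
    (∃ F : (ℕ → ℕ) → (ℕ → ℕ) → Prop, AnalyticER F ∧ ¬ BorelRed F (BiEmb FinCl)) ∧
    ¬ CompleteAnalytic (BiEmb FinCl) := by
  have key : ∃ F : (ℕ → ℕ) → (ℕ → ℕ) → Prop, AnalyticER F ∧ ¬ BorelRed F (BiEmb FinCl) := by
    obtain ⟨F, a, hF, hFa, hna⟩ := exists_analytic_equiv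
    refine ⟨F, ⟨hF, hFa⟩, ?_⟩
    rintro ⟨f, hf, hred⟩
    apply hna
    have e : {x | F a x} = f ⁻¹' {L' : LO | BiEmb FinCl (f a) L'} := by
      ext x
      exact hred a x
    rw [e]
    exact hf (classes_borel (f a))
  refine ⟨⟨measurableSet_range_inl, ?_, downClosed_finCl, ccs_finCl, finCl_subset_scat,
    finCl_ne_one⟩, key, ?_⟩
  · exact ⟨_, ⟨0, fun _ => true, fun _ => rfl, fun a b _ _ => Fin.ext (by omega),
      fun _ _ _ _ _ => rfl, fun _ _ => Or.inl rfl⟩, rfl⟩
  · rintro ⟨_, h⟩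
    obtain ⟨F, hF, hn⟩ := key
    exact hn (h (ℕ → ℕ) F hF)

end Pool.Agent.Results.MP_9f2d77_lc.FinNotComplete
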